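import Mathlib
import Pool.Agent.H3.TwoClass.Main

set_option autoImplicit false

namespace Pool.Agent.Results.MP_c34da8_nt.TwoClasses

open Filter

/-- `D_f(P)` for the partition `P = {A₁, A₂}` of the positive integers: the positive integers
`n = a a'` with `a, a'` in a common class and `min(a, a') > f(n)`. -/
def D (f : ℕ → ℝ) (A₁ A₂ : Set ℕ) : Set ℕ :=
  {n : ℕ | 0 < n ∧ ∃ a a' : ℕ, n = a * a' ∧ ((a ∈ A₁ ∧ a' ∈ A₁) ∨ (a ∈ A₂ ∧ a' ∈ A₂)) ∧
    f n < min (a : ℝ) (a' : ℝ)}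

/-- `|E ∩ {1, ..., M}|`. -/
noncomputable def count (E : Set ℕ) (M : ℕ) : ℕ := {n : ℕ | n ∈ E ∧ 0 < n ∧ n ≤ M}.ncard

/-- The lower asymptotic density of `E`. -/
noncomputable def lowerDensity (E : Set ℕ) : ℝ :=
  liminf (fun M : ℕ => (count E M : ℝ) / (M : ℝ)) atTop

lemma count_fin (E : Set ℕ) (M : ℕ) : {n : ℕ | n ∈ E ∧ 0 < n ∧ n ≤ M}.Finite :=
  (Set.finite_Iic M).subset fun _ h => h.2.2

lemma count_le (E : Set ℕ) (M : ℕ) : count E M ≤ M := by
  classical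
  unfold count
  have h1 : {n : ℕ | n ∈ E ∧ 0 < n ∧ n ≤ M} ⊆ ((Finset.Ioc 0 M : Finset ℕ) : Set ℕ) := by
    intro n hn
    rw [Finset.coe_Ioc]
    exact ⟨hn.2.1, hn.2.2⟩
  have h2 := Set.ncard_le_ncard h1 (Finset.finite_toSet _)
  rw [Set.ncard_coe_finset, Nat.card_Ioc] at h2
  omega

lemma lowerDensity_eq (E : Set ℕ)
    (h : ∀ ε : ℝ, 0 < ε → ∃ᶠ M : ℕ in atTop, (count E M : ℝ) ≤ ε * (M : ℝ)) : lowerDensity E = 0 := by
  have hb : IsBoundedUnder (· ≥ ·) atTop (fun M : ℕ => (count E M : ℝ) / (M : ℝ)) :=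
    ⟨0, Filter.eventually_map.mpr (Filter.Eventually.of_forall fun M => by positivity)⟩
  have hb2 : IsCoboundedUnder (· ≥ ·) atTop (fun M : ℕ => (count E M : ℝ) / (M : ℝ)) := by
    apply IsBoundedUnder.isCoboundedUnder_ge
    refine ⟨1, Filter.eventually_map.mpr (Filter.Eventually.of_forall fun M => ?_)⟩
    apply div_le_one_of_le₀ _ (by positivity)
    exact_mod_cast count_le E M
  apply le_antisymm
  · apply le_of_forall_pos_le_add
    intro ε hε
    rw [zero_add]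
    unfold lowerDensity
    apply Filter.liminf_le_of_frequently_le _ hb
    refine ((h ε hε).and_eventually (eventually_gt_atTop 0)).mono ?_
    rintro M ⟨h1, h2⟩
    rw [div_le_iff₀ (by exact_mod_cast h2)]
    exact h1
  · unfold lowerDensity
    exact Filter.le_liminf_of_le hb2 (Filter.Eventually.of_forall fun M => by positivity)

theorem result : ∀ f : ℕ → ℝ, Tendsto f atTop atTop →
    ∃ A₁ A₂ : Set ℕ, A₁.Nonempty ∧ A₂.Nonempty ∧ Disjoint A₁ A₂ ∧ A₁ ∪ A₂ = {n : ℕ | 0 < n} ∧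
      lowerDensity (D f A₁ A₂) = 0 ∧
      ∀ ε : ℝ, 0 < ε → ∃ᶠ M : ℕ in atTop, (count (D f A₁ A₂) M : ℝ) ≤ ε * (M : ℝ) := by
  classical
  intro f hf
  obtain ⟨R, h0, hR, hseq⟩ := Pool.H3.TwoClass.exists_seq f hf
  have hm := Pool.H3.TwoClass.R_mono R h0 hR
  have key : ∀ ε : ℝ, 0 < ε → ∃ᶠ M : ℕ in atTop,
      (count (D f (Pool.H3.TwoClass.A1 R) {n : ℕ | 0 < n ∧ n ∉ Pool.H3.TwoClass.A1 R}) M : ℝ) ≤ ε * (M : ℝ) := by
    intro ε hε
    rw [Filter.frequently_atTop]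
    intro M0
    obtain ⟨j0, hj0⟩ := exists_nat_one_div_lt hε
    set j := max j0 M0 with hj
    refine ⟨(R (j+1))^2, ?_, ?_⟩
    · have h1 : j + 1 ≤ R (j+1) := hm.id_le (j+1)
      have h2 : R (j+1) ≤ (R (j+1))^2 := Nat.le_self_pow (by norm_num) _
      have h3 : M0 ≤ j := le_max_right _ _
      change M0 ≤ _
      omega
    · obtain ⟨n0, hn0, hb⟩ := hseq j
      unfold count
      rw [Set.ncard_eq_toFinset_card _ (count_fin _ _)]
      have h1 := Pool.H3.TwoClass.main f R h0 hR j n0 hn0 (count_fin (D f (Pool.H3.TwoClass.A1 R) {n : ℕ | 0 < n ∧ n ∉ Pool.H3.TwoClass.A1 R}) ((R (j+1))^2)).toFinset (by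
        intro n hn
        rw [Set.Finite.mem_toFinset] at hn
        obtain ⟨⟨_, a, b, hab, hcl, hfa⟩, hn1, hn2⟩ := hn
        refine ⟨hn1, hn2, a, b, hab, ?_, lt_of_lt_of_le hfa (min_le_left _ _), lt_of_lt_of_le hfa (min_le_right _ _)⟩
        rcases hcl with h | h
        · exact Or.inl h
        · exact Or.inr ⟨h.1.2, h.2.2⟩)
      have h2 : ((count_fin (D f (Pool.H3.TwoClass.A1 R) {n : ℕ | 0 < n ∧ n ∉ Pool.H3.TwoClass.A1 R}) ((R (j+1))^2)).toFinset.card : ℝ) ≤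
          n0 + (Pool.H3.TwoClass.MT (R (j+1))).card := by exact_mod_cast h1
      refine h2.trans (hb.trans ?_)
      apply mul_le_mul_of_nonneg_right _ (by positivity)
      have h3 : (1:ℝ)/((j:ℝ)+1) ≤ 1/((j0:ℝ)+1) := by
        apply one_div_le_one_div_of_le (by positivity)
        have : (j0:ℝ) ≤ j := by exact_mod_cast le_max_left _ _
        linarith
      linarith
  refine ⟨Pool.H3.TwoClass.A1 R, {n : ℕ | 0 < n ∧ n ∉ Pool.H3.TwoClass.A1 R}, ?_, ?_, ?_, ?_, lowerDensity_eq _ key, key⟩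
  · exact ⟨R 1, 0, hR 0, le_rfl⟩
  · refine ⟨R 1 + 1, Nat.succ_pos _, fun hA => ?_⟩
    have h1 := hR 0
    have h2 := h0 0
    have h3 : 2 ≤ R 1 := by
      have : 1 ≤ (R 0)^2 := Nat.one_le_pow _ _ h2
      simp only [zero_add] at h1
      omega
    have h4 := Pool.H3.TwoClass.class1 R h0 hR 0 (R 1 + 1) (by simp only [zero_add] at h1; omega)
      (by simp only [zero_add]; nlinarith) hA
    simp only [zero_add] at h4
    omega
  · rw [Set.disjoint_left]
    intro a ha hb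
    exact hb.2 ha
  · ext n
    simp only [Set.mem_union, Set.mem_ofPred_eq]
    constructor
    · rintro (⟨j, hj, _⟩ | h)
      · exact lt_of_le_of_lt (Nat.zero_le _) hj
      · exact h.1
    · intro h
      by_cases hA : n ∈ Pool.H3.TwoClass.A1 R
      · exact Or.inl hA
      · exact Or.inr ⟨h, hA⟩

end Pool.Agent.Results.MP_c34da8_nt.TwoClasses
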